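import Mathlib
import Pool.Agent.V11146.BlowupThr

set_option autoImplicit false

namespace Pool.Agent.Results.MP_dfc8ea_co.WheelHomBlowup

open Finset SimpleGraph Pool.Agent.V11146.BlowupThr

/-- The set of `α ≥ 0` for which there is one finite `H`-free graph `F` such that every finite
`H`-free graph `G` with minimum degree at least `α |G|` has a homomorphism to `F`. -/
def homSet {W : Type} (H : SimpleGraph W) : Set ℝ :=
  {α : ℝ | 0 ≤ α ∧ ∃ (X : Type) (_ : Finite X) (F : SimpleGraph X), H.Free F ∧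
    ∀ (V : Type) [Fintype V] (G : SimpleGraph V), H.Free G → MinDegGe G α → Nonempty (G →g F)}

/-- The homomorphism threshold of `H`. -/
noncomputable def homThreshold {W : Type} (H : SimpleGraph W) : ℝ := sInf (homSet H)

/-- Index type of all small wheel-free graphs. -/
abbrev Idx : Type := Σ n : Fin 2000000, {G : SimpleGraph (Fin n.1) // wheel4.Free G}

/-- Disjoint union of all small wheel-free graphs. -/
def bigF : SimpleGraph (Σ i : Idx, Fin i.1.1) where
  Adj p q := ∃ (i : Idx) (a b : Fin i.1.1), p = ⟨i, a⟩ ∧ q = ⟨i, b⟩ ∧ i.2.1.Adj a b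
  symm := ⟨by
    rintro p q ⟨i, a, b, h1, h2, h3⟩
    exact ⟨i, b, a, h2, h1, h3.symm⟩⟩
  loopless := ⟨by
    rintro p ⟨i, a, b, h1, h2, h3⟩
    rw [h1] at h2
    have : a = b := by
      simpa using h2
    exact h3.ne this⟩

lemma bigF_adj (i : Idx) (a : Fin i.1.1) (q : Σ i : Idx, Fin i.1.1) :
    bigF.Adj ⟨i, a⟩ q ↔ ∃ b, q = ⟨i, b⟩ ∧ i.2.1.Adj a b := by
  constructor
  · rintro ⟨j, a', b, h1, h2, h3⟩
    obtain ⟨rfl, h⟩ := Sigma.mk.inj_iff.mp h1
    have h' := eq_of_heq h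
    subst h'
    exact ⟨b, h2, h3⟩
  · rintro ⟨b, h2, h3⟩
    exact ⟨i, a, b, rfl, h2, h3⟩

lemma bigF_adj' (i : Idx) (a b : Fin i.1.1) : bigF.Adj ⟨i, a⟩ ⟨i, b⟩ ↔ i.2.1.Adj a b := by
  rw [bigF_adj]
  constructor
  · rintro ⟨b', h1, h2⟩
    have : b = b' := by simpa using h1
    subst this
    exact h2
  · intro h
    exact ⟨b, rfl, h⟩

lemma bigF_free : wheel4.Free bigF := by
  intro hc
  obtain ⟨⟨i, c⟩, a, b, a', b', h1, h2, h3, h4, h5, h6, h7, h8, h9, h10⟩ :=
    (contained_iff bigF).mp hc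
  obtain ⟨xa, rfl, h1'⟩ := (bigF_adj i c a).mp h1
  obtain ⟨xb, rfl, h2'⟩ := (bigF_adj i c b).mp h2
  obtain ⟨xa', rfl, h3'⟩ := (bigF_adj i c a').mp h3
  obtain ⟨xb', rfl, h4'⟩ := (bigF_adj i c b').mp h4
  rw [bigF_adj'] at h5 h6 h7 h8
  apply i.2.2
  rw [contained_iff]
  refine ⟨c, xa, xb, xa', xb', h1', h2', h3', h4', h5, h6, h7, h8, ?_, ?_⟩
  · intro h; exact h9 (by rw [h])
  · intro h; exact h10 (by rw [h])

/-- every small wheel-free graph maps into `bigF`. -/
lemma small_hom {V : Type} [Fintype V] (G : SimpleGraph V) (hG : wheel4.Free G)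
    (hn : Fintype.card V < 2000000) : Nonempty (G →g bigF) := by
  obtain ⟨e⟩ : Nonempty (V ≃ Fin (Fintype.card V)) := ⟨Fintype.equivFin V⟩
  have hfree : wheel4.Free (G.comap e.symm) := by
    intro h
    apply hG
    rw [contained_iff] at h ⊢
    obtain ⟨c, a, b, a', b', h1, h2, h3, h4, h5, h6, h7, h8, h9, h10⟩ := h
    exact ⟨e.symm c, e.symm a, e.symm b, e.symm a', e.symm b', h1, h2, h3, h4, h5, h6, h7, h8,
      fun h => h9 (e.symm.injective h), fun h => h10 (e.symm.injective h)⟩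
  let i : Idx := ⟨⟨Fintype.card V, hn⟩, ⟨G.comap e.symm, hfree⟩⟩
  refine ⟨⟨fun v => ⟨i, e v⟩, ?_⟩⟩
  intro v w hvw
  rw [bigF_adj']
  change G.Adj (e.symm (e v)) (e.symm (e w))
  simpa using hvw

lemma top4_free : wheel4.Free (⊤ : SimpleGraph (Fin 4)) := by
  rintro ⟨f⟩
  have := Fintype.card_le_of_injective f f.injective
  simp at this

/-- the complete graph on four vertices maps into `bigF`. -/
lemma top_hom : Nonempty ((⊤ : SimpleGraph (Bool × Bool)) →g bigF) := by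
  obtain ⟨e⟩ : Nonempty ((Bool × Bool) ≃ Fin 4) :=
    ⟨Fintype.equivFinOfCardEq (by simp)⟩
  let i : Idx := ⟨⟨4, by norm_num⟩, ⟨⊤, top4_free⟩⟩
  refine ⟨⟨fun v => ⟨i, e v⟩, ?_⟩⟩
  intro v w hvw
  rw [bigF_adj']
  change (e v) ≠ (e w)
  exact fun h => hvw (e.injective h)

lemma mem_homSet : (499 / 1000 : ℝ) ∈ homSet wheel4 := by
  refine ⟨by norm_num, _, inferInstance, bigF, bigF_free, ?_⟩
  intro V _ G hG hd
  by_cases hn : Fintype.card V < 2000000
  · exact small_hom G hG hn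
  · obtain ⟨side, hside⟩ := exists_sides G hG hd (by omega)
    obtain ⟨f⟩ := hom_of_sides G side hside
    obtain ⟨g⟩ := top_hom
    exact ⟨g.comp f⟩

/-- For the wheel with four spokes `K_{1,2,2}` the homomorphism threshold is at most `0.499` while
the blowup threshold is at least `1/2`; hence the two thresholds are not equal for all graphs. -/
theorem result :
    (homThreshold wheel4 ≤ 499 / 1000 ∧ 1 / 2 ≤ blowupThreshold wheel4) ∧
    ¬ ∀ (k : ℕ) (H : SimpleGraph (Fin k)), homThreshold H = blowupThreshold H := by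
  have h1 : homThreshold wheel4 ≤ 499 / 1000 := csInf_le ⟨0, fun _ h => h.1⟩ mem_homSet
  have h2 : 1 / 2 ≤ blowupThreshold wheel4 := half_le_blowupThreshold
  refine ⟨⟨h1, h2⟩, ?_⟩
  intro h
  have h3 := h 5 wheel4
  rw [h3] at h1
  linarith

end Pool.Agent.Results.MP_dfc8ea_co.WheelHomBlowup
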